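import Pool.Agent.V11212.Av.Wedge

/-!
# Every wedge of spheres is an avalanche complex
-/

set_option autoImplicit false

namespace Pool.Agent.Results.MP_fb4947_gt.WedgesOfSpheres

open Pool.Agent.V11212.Av

/-- **Main result.** For every finite list of dimensions `d 0, ..., d (m - 1)` there are a finite
weakly connected digraph `G` and a starting configuration `c₀` such that the avalanche complex
of `(G, c₀)` is homotopy equivalent to the wedge of the spheres of these dimensions. -/
theorem result (m : ℕ) (d : Fin m → ℕ) :
    ∃ (V : Type) (_ : Fintype V) (G : DG V) (c₀ : V → ℕ), G.WeaklyConnected ∧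
      Nonempty (ContinuousMap.HomotopyEquiv (Realization (G.Face c₀)) (Wedge d)) :=
  main d

end Pool.Agent.Results.MP_fb4947_gt.WedgesOfSpheres
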